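import Pool.Agent.E8helper19.LC.Stm2

/-! LC23: the symmetric Taylor expansion of the chord. -/

set_option autoImplicit false
open MeasureTheory Filter Topology Set
open scoped ContDiff Real InnerProductSpace
open Pool.Agent.E8helper19.LC

namespace Pool.Agent.E8helper26.LC

noncomputable section

theorem mv {F : Type*} [NormedAddCommGroup F] [NormedSpace ℝ F] {f f' : ℝ → F}
    (hf : ∀ x, HasDerivAt f (f' x) x) {h B : ℝ} (hh : 0 ≤ h)
    (hB : ∀ x, 0 ≤ x → x ≤ h → ‖f' x‖ ≤ B) : ‖f h - f 0‖ ≤ B * h := by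
  have := norm_image_sub_le_of_norm_deriv_le_segment' (a := 0) (b := h) (f := f) (f' := f') (C := B)
    (fun x _ => (hf x).hasDerivWithinAt) (fun x hx => hB x hx.1 hx.2.le) h ⟨hh, le_rfl⟩
  simpa using this

theorem lip {F : Type*} [NormedAddCommGroup F] [NormedSpace ℝ F] {f f' : ℝ → F}
    (hf : ∀ x, HasDerivAt f (f' x) x) {M : ℝ} (hM : ∀ x, ‖f' x‖ ≤ M) (a b : ℝ) :
    ‖f a - f b‖ ≤ M * |a - b| := by
  have := Convex.norm_image_sub_le_of_norm_hasDerivWithin_le (f := f) (f' := f') (C := M)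
    (s := univ) (x := b) (y := a) (fun x _ => (hf x).hasDerivWithinAt) (fun x _ => hM x)
    convex_univ (mem_univ _) (mem_univ _)
  simpa [Real.norm_eq_abs] using this

theorem shiftp {F : Type*} [NormedAddCommGroup F] [NormedSpace ℝ F] {f f' : ℝ → F}
    (hf : ∀ x, HasDerivAt f (f' x) x) (c x : ℝ) :
    HasDerivAt (fun k => f (c + k)) (f' (c + x)) x :=
  (hf (c + x)).comp_const_add c x

theorem shiftm {F : Type*} [NormedAddCommGroup F] [NormedSpace ℝ F] {f f' : ℝ → F}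
    (hf : ∀ x, HasDerivAt f (f' x) x) (c x : ℝ) :
    HasDerivAt (fun k => f (c - k)) (-f' (c - x)) x :=
  (hf (c - x)).comp_const_sub c x

/-- second differences -/
theorem sec {F : Type*} [NormedAddCommGroup F] [NormedSpace ℝ F] {f f' f'' : ℝ → F}
    (hf : ∀ x, HasDerivAt f (f' x) x) (hf' : ∀ x, HasDerivAt f' (f'' x) x) {M : ℝ}
    (hM : ∀ x, ‖f'' x‖ ≤ M) (c h : ℝ) (hh : 0 ≤ h) :
    ‖f (c + h) + f (c - h) - (2 : ℝ) • f c‖ ≤ 2 * M * h ^ 2 := by
  have hM0 : 0 ≤ M := (norm_nonneg _).trans (hM 0)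
  have hd : ∀ x, HasDerivAt (fun k => f (c + k) + f (c - k)) (f' (c + x) + -f' (c - x)) x :=
    fun x => (shiftp hf c x).add (shiftm hf c x)
  have := mv hd hh (B := 2 * M * h) (by
    intro x hx hxh
    have := lip hf' hM (c + x) (c - x)
    rw [← sub_eq_add_neg]
    refine this.trans ?_
    rw [show c + x - (c - x) = 2 * x by ring, abs_of_nonneg (by linarith)]
    nlinarith)
  rw [show (fun k => f (c + k) + f (c - k)) h - (fun k => f (c + k) + f (c - k)) 0 =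
    f (c + h) + f (c - h) - (2 : ℝ) • f c by simp [two_smul]] at this
  refine this.trans (le_of_eq (by ring))

theorem third {F : Type*} [NormedAddCommGroup F] [NormedSpace ℝ F] {T f f' f'' : ℝ → F}
    (hT : ∀ x, HasDerivAt T (f x) x)
    (hf : ∀ x, HasDerivAt f (f' x) x) (hf' : ∀ x, HasDerivAt f' (f'' x) x) {M : ℝ}
    (hM : ∀ x, ‖f'' x‖ ≤ M) (c h : ℝ) (hh : 0 ≤ h) :
    ‖T (c + h) - T (c - h) - (2 * h) • f c‖ ≤ 2 * M * h ^ 3 := by
  have hM0 : 0 ≤ M := (norm_nonneg _).trans (hM 0)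
  have hd : ∀ x, HasDerivAt (fun k => T (c + k) - T (c - k) - (2 * k) • f c)
      (f (c + x) - -f (c - x) - (2 * 1 : ℝ) • f c) x :=
    fun x => ((shiftp hT c x).sub (shiftm hT c x)).sub
      (((hasDerivAt_id x).const_mul 2).smul_const (f c))
  have := mv hd hh (B := 2 * M * h ^ 2) (by
    intro x hx hxh
    have h1 := sec hf hf' hM c x hx
    rw [sub_neg_eq_add, mul_one]
    refine h1.trans ?_
    have : x ^ 2 ≤ h ^ 2 := by nlinarith
    nlinarith)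
  rw [show (fun k => T (c + k) - T (c - k) - (2 * k) • f c) h -
    (fun k => T (c + k) - T (c - k) - (2 * k) • f c) 0 =
    T (c + h) - T (c - h) - (2 * h) • f c by simp] at this
  refine this.trans (le_of_eq (by ring))

theorem nsq {a b : P} {A B : ℝ} (h1 : ‖a - b‖ ≤ A) (h2 : ‖a‖ + ‖b‖ ≤ B) :
    |‖a‖ ^ 2 - ‖b‖ ^ 2| ≤ A * B := by
  have e : ‖a‖ ^ 2 - ‖b‖ ^ 2 = (‖a‖ - ‖b‖) * (‖a‖ + ‖b‖) := by ring
  rw [e, abs_mul, abs_of_nonneg (by positivity : 0 ≤ ‖a‖ + ‖b‖)]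
  have h3 := abs_norm_sub_norm_le a b
  exact mul_le_mul (h3.trans h1) h2 (by positivity) ((norm_nonneg _).trans h1)

/-- the data -/
structure Dat (γ T N N1 N2 : ℝ → P) (M : ℝ) : Prop where
  hγ : ∀ x, HasDerivAt γ (T x) x
  hT : ∀ x, HasDerivAt T (N x) x
  hN : ∀ x, HasDerivAt N (N1 x) x
  hN1 : ∀ x, HasDerivAt N1 (N2 x) x
  unit : ∀ x, ‖T x‖ = 1
  b0 : ∀ x, ‖N x‖ ≤ M
  b1 : ∀ x, ‖N1 x‖ ≤ M
  b2 : ∀ x, ‖N2 x‖ ≤ M

variable {γ T N N1 N2 : ℝ → P} {M : ℝ}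

theorem phi (D : Dat γ T N N1 N2 M) (u v : ℝ) :
    |‖T u - T v‖ ^ 2 - (u - v) ^ 2 * ‖N ((u + v) / 2)‖ ^ 2| ≤ M ^ 2 * (u - v) ^ 4 := by
  have hM0 : 0 ≤ M := (norm_nonneg _).trans (D.b0 0)
  have key : ∀ c k : ℝ, 0 ≤ k → |‖T (c + k) - T (c - k)‖ ^ 2 - (2 * k) ^ 2 * ‖N c‖ ^ 2| ≤
      M ^ 2 * (2 * k) ^ 4 := by
    intro c k hk
    have h1 := third D.hT D.hN D.hN1 D.b2 c k hk
    have h2 := lip D.hT D.b0 (c + k) (c - k)
    rw [show c + k - (c - k) = 2 * k by ring, abs_of_nonneg (by linarith)] at h2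
    have h3 : ‖(2 * k) • N c‖ ≤ M * (2 * k) := by
      rw [norm_smul, Real.norm_of_nonneg (by linarith)]
      nlinarith [D.b0 c]
    have h4 := nsq h1 (add_le_add h2 h3)
    rw [norm_smul, Real.norm_of_nonneg (by linarith : 0 ≤ 2 * k), mul_pow] at h4
    refine h4.trans ?_
    have h5 : 0 ≤ M ^ 2 * k ^ 4 := by positivity
    nlinarith
  rcases le_total v u with h | h
  · have := key ((u + v) / 2) ((u - v) / 2) (by linarith)
    rw [show (u + v) / 2 + (u - v) / 2 = u by ring, show (u + v) / 2 - (u - v) / 2 = v by ring,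
      show 2 * ((u - v) / 2) = u - v by ring] at this
    exact this
  · have := key ((u + v) / 2) ((v - u) / 2) (by linarith)
    rw [show (u + v) / 2 + (v - u) / 2 = v by ring, show (u + v) / 2 - (v - u) / 2 = u by ring,
      show 2 * ((v - u) / 2) = v - u by ring, norm_sub_rev] at this
    rw [show (u - v) ^ 2 = (v - u) ^ 2 by ring, show (u - v) ^ 4 = (v - u) ^ 4 by ring]
    exact this

theorem qsec (D : Dat γ T N N1 N2 M) (s h : ℝ) :
    |‖N (s + h)‖ ^ 2 + ‖N (s - h)‖ ^ 2 - 2 * ‖N s‖ ^ 2| ≤ 6 * M ^ 2 * h ^ 2 := by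
  have hM0 : 0 ≤ M := (norm_nonneg _).trans (D.b0 0)
  have key : ∀ h : ℝ, 0 ≤ h →
      |‖N (s + h)‖ ^ 2 + ‖N (s - h)‖ ^ 2 - 2 * ‖N s‖ ^ 2| ≤ 6 * M ^ 2 * h ^ 2 := by
    intro h hh
    set a := N (s + h)
    set b := N (s - h)
    set c := N s with hc
    have e : ‖a‖ ^ 2 + ‖b‖ ^ 2 - 2 * ‖c‖ ^ 2 =
        2 * ⟪a + b - (2 : ℝ) • c, c⟫_ℝ + ‖a - c‖ ^ 2 + ‖b - c‖ ^ 2 := by
      rw [inner_sub_left, inner_add_left, inner_smul_left, real_inner_self_eq_norm_sq,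
        norm_sub_sq_real, norm_sub_sq_real]
      simp
      ring
    have h1 : ‖a + b - (2 : ℝ) • c‖ ≤ 2 * M * h ^ 2 := sec D.hN D.hN1 D.b2 s h hh
    have h2 : |⟪a + b - (2 : ℝ) • c, c⟫_ℝ| ≤ 2 * M * h ^ 2 * M :=
      (abs_real_inner_le_norm _ _).trans
        (mul_le_mul h1 (D.b0 s) (norm_nonneg _) (by positivity))
    have h3 : ‖a - c‖ ≤ M * h := by
      have := lip D.hN D.b1 (s + h) s
      rwa [show s + h - s = h by ring, abs_of_nonneg hh] at this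
    have h4 : ‖b - c‖ ≤ M * h := by
      have := lip D.hN D.b1 (s - h) s
      rwa [show s - h - s = -h by ring, abs_neg, abs_of_nonneg hh] at this
    have h5 : ‖a - c‖ ^ 2 ≤ (M * h) ^ 2 := pow_le_pow_left₀ (norm_nonneg _) h3 2
    have h6 : ‖b - c‖ ^ 2 ≤ (M * h) ^ 2 := pow_le_pow_left₀ (norm_nonneg _) h4 2
    rw [e, abs_le]
    rw [abs_le] at h2
    constructor
    · nlinarith [sq_nonneg ‖a - c‖, sq_nonneg ‖b - c‖, sq_nonneg (M * h)]
    · nlinarith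
  rcases le_total 0 h with hh | hh
  · exact key h hh
  · have := key (-h) (by linarith)
    rw [show s + -h = s - h by ring, show s - -h = s + h by ring, neg_sq] at this
    rw [show ‖N (s + h)‖ ^ 2 + ‖N (s - h)‖ ^ 2 - 2 * ‖N s‖ ^ 2 =
      ‖N (s - h)‖ ^ 2 + ‖N (s + h)‖ ^ 2 - 2 * ‖N s‖ ^ 2 by ring]
    exact this

theorem inn (D : Dat γ T N N1 N2 M) (a b : ℝ) : ⟪T a, T b⟫_ℝ = 1 - ‖T a - T b‖ ^ 2 / 2 := by
  rw [norm_sub_sq_real, D.unit, D.unit]
  ring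

theorem bder (D : Dat γ T N N1 N2 M) (m x h : ℝ) (hx : 0 ≤ x) (hxh : x ≤ h) :
    |⟪T (m + x) + T (m - x), T (m + h) + T (m - h)⟫_ℝ - 4 +
      ‖N m‖ ^ 2 * (2 * h ^ 2 + 2 * x ^ 2)| ≤ 50 * M ^ 2 * h ^ 4 := by
  have hM0 : 0 ≤ M := (norm_nonneg _).trans (D.b0 0)
  have hh : 0 ≤ h := hx.trans hxh
  have e : ⟪T (m + x) + T (m - x), T (m + h) + T (m - h)⟫_ℝ =
      4 - (‖T (m + x) - T (m + h)‖ ^ 2 + ‖T (m + x) - T (m - h)‖ ^ 2 +
        ‖T (m - x) - T (m + h)‖ ^ 2 + ‖T (m - x) - T (m - h)‖ ^ 2) / 2 := by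
    rw [inner_add_left, inner_add_right, inner_add_right, inn D, inn D, inn D, inn D]
    ring
  have p1 := phi D (m + x) (m + h)
  have p2 := phi D (m + x) (m - h)
  have p3 := phi D (m - x) (m + h)
  have p4 := phi D (m - x) (m - h)
  rw [show (m + x + (m + h)) / 2 = m + (x + h) / 2 by ring,
    show m + x - (m + h) = -(h - x) by ring] at p1
  rw [show (m + x + (m - h)) / 2 = m - (h - x) / 2 by ring,
    show m + x - (m - h) = x + h by ring] at p2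
  rw [show (m - x + (m + h)) / 2 = m + (h - x) / 2 by ring,
    show m - x - (m + h) = -(x + h) by ring] at p3
  rw [show (m - x + (m - h)) / 2 = m - (x + h) / 2 by ring,
    show m - x - (m - h) = h - x by ring] at p4
  have s1 := qsec D m ((x + h) / 2)
  have s2 := qsec D m ((h - x) / 2)
  rw [neg_sq, show (-(h - x)) ^ 4 = (h - x) ^ 4 by ring] at p1
  rw [neg_sq, show (-(x + h)) ^ 4 = (x + h) ^ 4 by ring] at p3
  have q1 : (h - x) ^ 4 ≤ h ^ 4 := pow_le_pow_left₀ (by linarith) (by linarith) 4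
  have q2 : (x + h) ^ 4 ≤ (2 * h) ^ 4 := pow_le_pow_left₀ (by linarith) (by linarith) 4
  have q3 : (h - x) ^ 2 ≤ h ^ 2 := pow_le_pow_left₀ (by linarith) (by linarith) 2
  have q4 : (x + h) ^ 2 ≤ (2 * h) ^ 2 := pow_le_pow_left₀ (by linarith) (by linarith) 2
  set A1 := ‖T (m + x) - T (m + h)‖ ^ 2
  set A2 := ‖T (m + x) - T (m - h)‖ ^ 2
  set A3 := ‖T (m - x) - T (m + h)‖ ^ 2
  set A4 := ‖T (m - x) - T (m - h)‖ ^ 2
  set B1 := ‖N (m + (x + h) / 2)‖ ^ 2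
  set B4 := ‖N (m - (x + h) / 2)‖ ^ 2
  set B3 := ‖N (m + (h - x) / 2)‖ ^ 2
  set B2 := ‖N (m - (h - x) / 2)‖ ^ 2
  set Q := ‖N m‖ ^ 2
  have t1 : |(h - x) ^ 2 * (B1 + B4 - 2 * Q)| ≤ h ^ 2 * (6 * M ^ 2 * h ^ 2) := by
    rw [abs_mul, abs_of_nonneg (sq_nonneg (h - x))]
    refine mul_le_mul q3 (s1.trans ?_) (abs_nonneg _) (sq_nonneg h)
    have : ((x + h) / 2) ^ 2 ≤ h ^ 2 := by nlinarith
    have : 0 ≤ 6 * M ^ 2 := by positivity
    nlinarith
  have t2 : |(x + h) ^ 2 * (B3 + B2 - 2 * Q)| ≤ (2 * h) ^ 2 * (6 * M ^ 2 * h ^ 2) := by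
    rw [abs_mul, abs_of_nonneg (sq_nonneg (x + h))]
    refine mul_le_mul q4 (s2.trans ?_) (abs_nonneg _) (sq_nonneg _)
    have : ((h - x) / 2) ^ 2 ≤ h ^ 2 := by nlinarith
    have : 0 ≤ 6 * M ^ 2 := by positivity
    nlinarith
  have u1 : M ^ 2 * (h - x) ^ 4 ≤ M ^ 2 * h ^ 4 := mul_le_mul_of_nonneg_left q1 (sq_nonneg M)
  have u2 : M ^ 2 * (x + h) ^ 4 ≤ M ^ 2 * (2 * h) ^ 4 := mul_le_mul_of_nonneg_left q2 (sq_nonneg M)
  obtain ⟨K, hK⟩ : ∃ K, K = M ^ 2 * h ^ 4 := ⟨_, rfl⟩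
  have hK0 : 0 ≤ K := by rw [hK]; positivity
  have u2' : M ^ 2 * (x + h) ^ 4 ≤ 16 * K := by rw [hK]; refine u2.trans (le_of_eq ?_); ring
  have t1' : |(h - x) ^ 2 * (B1 + B4 - 2 * Q)| ≤ 6 * K := by
    rw [hK]; refine t1.trans (le_of_eq ?_); ring
  have t2' : |(x + h) ^ 2 * (B3 + B2 - 2 * Q)| ≤ 24 * K := by
    rw [hK]; refine t2.trans (le_of_eq ?_); ring
  rw [← hK] at u1
  have r1 := p1.trans u1
  have r4 := p4.trans u1
  have r2 := p2.trans u2'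
  have r3 := p3.trans u2'
  rw [e, show 50 * M ^ 2 * h ^ 4 = 50 * K by rw [hK]; ring]
  have e2 : 4 - (A1 + A2 + A3 + A4) / 2 - 4 + Q * (2 * h ^ 2 + 2 * x ^ 2) =
      -((A1 - (h - x) ^ 2 * B1) + (A4 - (h - x) ^ 2 * B4) + (A2 - (x + h) ^ 2 * B2) +
        (A3 - (x + h) ^ 2 * B3) + (h - x) ^ 2 * (B1 + B4 - 2 * Q) +
        (x + h) ^ 2 * (B3 + B2 - 2 * Q)) / 2 := by ring
  rw [e2]
  clear_value A1 A2 A3 A4 B1 B2 B3 B4 Q
  generalize A1 - (h - x) ^ 2 * B1 = z1 at *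
  generalize A4 - (h - x) ^ 2 * B4 = z4 at *
  generalize A2 - (x + h) ^ 2 * B2 = z2 at *
  generalize A3 - (x + h) ^ 2 * B3 = z3 at *
  generalize (h - x) ^ 2 * (B1 + B4 - 2 * Q) = z5 at *
  generalize (x + h) ^ 2 * (B3 + B2 - 2 * Q) = z6 at *
  have a1 := abs_le.1 r1
  have a2 := abs_le.1 r2
  have a3 := abs_le.1 r3
  have a4 := abs_le.1 r4
  have a5 := abs_le.1 t1'
  have a6 := abs_le.1 t2'
  rw [abs_le]
  constructor <;> linarith [a1.1, a1.2, a2.1, a2.2, a3.1, a3.2, a4.1, a4.2, a5.1, a5.2, a6.1, a6.2]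

theorem bb (D : Dat γ T N N1 N2 M) (m h : ℝ) (hh : 0 ≤ h) :
    |⟪γ (m + h) - γ (m - h), T (m + h) + T (m - h)⟫_ℝ - 4 * h +
      ‖N m‖ ^ 2 * (8 / 3 * h ^ 3)| ≤ 50 * M ^ 2 * h ^ 5 := by
  have hd : ∀ x, HasDerivAt (fun x => ⟪γ (m + x) - γ (m - x), T (m + h) + T (m - h)⟫_ℝ - 4 * x +
      ‖N m‖ ^ 2 * (2 * h ^ 2 * x + 2 / 3 * x ^ 3))
      (⟪T (m + x) + T (m - x), T (m + h) + T (m - h)⟫_ℝ - 4 +
      ‖N m‖ ^ 2 * (2 * h ^ 2 + 2 * x ^ 2)) x := by
    intro x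
    have h1 : HasDerivAt (fun x => γ (m + x) - γ (m - x)) (T (m + x) + T (m - x)) x := by
      have := (shiftp D.hγ m x).sub (shiftm D.hγ m x)
      rwa [sub_neg_eq_add] at this
    have h2 : HasDerivAt (fun x => ⟪γ (m + x) - γ (m - x), T (m + h) + T (m - h)⟫_ℝ)
        ⟪T (m + x) + T (m - x), T (m + h) + T (m - h)⟫_ℝ x := by
      have := h1.inner ℝ (hasDerivAt_const x (T (m + h) + T (m - h)))
      simpa using this
    have h3 : HasDerivAt (fun x : ℝ => 4 * x) 4 x := by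
      simpa using (hasDerivAt_id x).const_mul 4
    have h4 : HasDerivAt (fun x : ℝ => ‖N m‖ ^ 2 * (2 * h ^ 2 * x + 2 / 3 * x ^ 3))
        (‖N m‖ ^ 2 * (2 * h ^ 2 + 2 * x ^ 2)) x := by
      have h5 : HasDerivAt (fun x : ℝ => 2 * h ^ 2 * x) (2 * h ^ 2) x := by
        simpa using (hasDerivAt_id x).const_mul (2 * h ^ 2)
      have h6 : HasDerivAt (fun x : ℝ => 2 / 3 * x ^ 3) (2 * x ^ 2) x := by
        have := (hasDerivAt_pow 3 x).const_mul (2 / 3 : ℝ)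
        refine this.congr_deriv ?_
        norm_num
        ring
      exact (h5.add h6).const_mul _
    exact (h2.sub h3).add h4
  have := mv hd hh (B := 50 * M ^ 2 * h ^ 4) (fun x hx hxh => by
    rw [Real.norm_eq_abs]
    exact bder D m x h hx hxh)
  rw [Real.norm_eq_abs] at this
  have e : (fun x => ⟪γ (m + x) - γ (m - x), T (m + h) + T (m - h)⟫_ℝ - 4 * x +
      ‖N m‖ ^ 2 * (2 * h ^ 2 * x + 2 / 3 * x ^ 3)) h -
      (fun x => ⟪γ (m + x) - γ (m - x), T (m + h) + T (m - h)⟫_ℝ - 4 * x +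
      ‖N m‖ ^ 2 * (2 * h ^ 2 * x + 2 / 3 * x ^ 3)) 0 =
      ⟪γ (m + h) - γ (m - h), T (m + h) + T (m - h)⟫_ℝ - 4 * h +
      ‖N m‖ ^ 2 * (8 / 3 * h ^ 3) := by
    simp only [add_zero, sub_zero, sub_self, inner_zero_left]
    ring
  rw [e] at this
  refine this.trans (le_of_eq (by ring))

theorem sqe (D : Dat γ T N N1 N2 M) (m h : ℝ) (hh : 0 ≤ h) :
    |‖γ (m + h) - γ (m - h)‖ ^ 2 - 4 * h ^ 2 + ‖N m‖ ^ 2 * (4 / 3 * h ^ 4)| ≤
      100 * M ^ 2 * h ^ 6 := by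
  have hd : ∀ x, HasDerivAt (fun x => ‖γ (m + x) - γ (m - x)‖ ^ 2 - 4 * x ^ 2 +
      ‖N m‖ ^ 2 * (4 / 3 * x ^ 4))
      (2 * (⟪γ (m + x) - γ (m - x), T (m + x) + T (m - x)⟫_ℝ - 4 * x +
      ‖N m‖ ^ 2 * (8 / 3 * x ^ 3))) x := by
    intro x
    have h1 : HasDerivAt (fun x => γ (m + x) - γ (m - x)) (T (m + x) + T (m - x)) x := by
      have := (shiftp D.hγ m x).sub (shiftm D.hγ m x)
      rwa [sub_neg_eq_add] at this
    have h2 := h1.norm_sq
    have h3 : HasDerivAt (fun x : ℝ => 4 * x ^ 2) (8 * x) x := by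
      refine ((hasDerivAt_pow 2 x).const_mul (4 : ℝ)).congr_deriv ?_
      norm_num
      ring
    have h4 : HasDerivAt (fun x : ℝ => ‖N m‖ ^ 2 * (4 / 3 * x ^ 4))
        (‖N m‖ ^ 2 * (16 / 3 * x ^ 3)) x := by
      refine (((hasDerivAt_pow 4 x).const_mul (4 / 3 : ℝ)).const_mul _).congr_deriv ?_
      have e4 : ((4 : ℕ) : ℝ) * x ^ (4 - 1) = 4 * x ^ 3 := by norm_num
      rw [e4]
      ring
    refine ((h2.sub h3).add h4).congr_deriv ?_
    ring
  have := mv hd hh (B := 100 * M ^ 2 * h ^ 5) (fun x hx hxh => by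
    rw [Real.norm_eq_abs, abs_mul, abs_of_pos (by norm_num : (0 : ℝ) < 2)]
    have h1 := bb D m x hx
    have h2 : x ^ 5 ≤ h ^ 5 := pow_le_pow_left₀ hx hxh 5
    have h3 : 50 * M ^ 2 * x ^ 5 ≤ 50 * M ^ 2 * h ^ 5 :=
      mul_le_mul_of_nonneg_left h2 (by positivity)
    linarith)
  rw [Real.norm_eq_abs] at this
  have e : (fun x => ‖γ (m + x) - γ (m - x)‖ ^ 2 - 4 * x ^ 2 +
      ‖N m‖ ^ 2 * (4 / 3 * x ^ 4)) h - (fun x => ‖γ (m + x) - γ (m - x)‖ ^ 2 - 4 * x ^ 2 +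
      ‖N m‖ ^ 2 * (4 / 3 * x ^ 4)) 0 =
      ‖γ (m + h) - γ (m - h)‖ ^ 2 - 4 * h ^ 2 + ‖N m‖ ^ 2 * (4 / 3 * h ^ 4) := by
    simp
  rw [e] at this
  refine this.trans (le_of_eq (by ring))

/-- from the square to the chord -/
theorem root {r d q C M : ℝ} (hr : 0 ≤ r) (hd : 0 ≤ d) (hdr : d ≤ r) (hq : 0 ≤ q) (hC : 0 ≤ C)
    (hqM : q ≤ M) (h : |d ^ 2 - r ^ 2 + q * r ^ 4 / 12| ≤ C * r ^ 6) :
    |(r - d) - q * r ^ 3 / 24| ≤ (1 + M + M ^ 2 + C * M + C) * r ^ 5 := by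
  have hM : 0 ≤ M := hq.trans hqM
  rcases hr.eq_or_lt with rfl | hr
  · have : d = 0 := le_antisymm hdr hd
    subst this
    simp
  rcases le_total 1 r with h1 | h1
  · have a1 : r ≤ r ^ 5 := by
      calc r = r * 1 := by ring
        _ ≤ r * r ^ 4 := mul_le_mul_of_nonneg_left (one_le_pow₀ h1) hr.le
        _ = r ^ 5 := by ring
    have a2 : r ^ 3 ≤ r ^ 5 := pow_le_pow_right₀ h1 (by norm_num)
    have a3 : q * r ^ 3 ≤ M * r ^ 5 := mul_le_mul hqM a2 (by positivity) hM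
    have a4 : 0 ≤ q * r ^ 3 := by positivity
    have a5 : 0 ≤ (M ^ 2 + C * M + C) * r ^ 5 := by positivity
    have a6 : (1 + M + M ^ 2 + C * M + C) * r ^ 5 =
      r ^ 5 + M * r ^ 5 + (M ^ 2 + C * M + C) * r ^ 5 := by ring
    rw [abs_le, a6]
    constructor <;> linarith
  · have hrd : 0 < r + d := by linarith
    set err := d ^ 2 - r ^ 2 + q * r ^ 4 / 12 with herr
    have e1 : (r - d) * (r + d) = q * r ^ 4 / 12 - err := by rw [herr]; ring
    have b1 : |err| ≤ C * r ^ 6 := h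
    have b2 : (r - d) * r ≤ q * r ^ 4 / 12 + C * r ^ 6 := by
      have : (r - d) * r ≤ (r - d) * (r + d) :=
        mul_le_mul_of_nonneg_left (by linarith) (by linarith)
      have := (abs_le.1 b1).1
      linarith
    have e2 : ((r - d) - q * r ^ 3 / 24) * (r + d) = (r - d) * (q * r ^ 3 / 24) - err := by
      have : ((r - d) - q * r ^ 3 / 24) * (r + d) =
        (r - d) * (r + d) - q * r ^ 3 / 24 * (r + d) := by ring
      rw [this, e1]
      ring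
    have b3 : |((r - d) - q * r ^ 3 / 24)| * r ≤ (r - d) * (q * r ^ 3 / 24) + C * r ^ 6 := by
      calc |((r - d) - q * r ^ 3 / 24)| * r ≤ |((r - d) - q * r ^ 3 / 24)| * (r + d) :=
            mul_le_mul_of_nonneg_left (by linarith) (abs_nonneg _)
        _ = |((r - d) - q * r ^ 3 / 24) * (r + d)| := by
            rw [abs_mul, abs_of_pos hrd]
        _ = |(r - d) * (q * r ^ 3 / 24) - err| := by rw [e2]
        _ ≤ |(r - d) * (q * r ^ 3 / 24)| + |err| := abs_sub _ _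
        _ ≤ (r - d) * (q * r ^ 3 / 24) + C * r ^ 6 := by
            rw [abs_of_nonneg (mul_nonneg (by linarith) (by positivity))]
            linarith
    have b4 : (r - d) * (q * r ^ 3 / 24) = (r - d) * r * (q * r ^ 2 / 24) := by ring
    have b5 : (r - d) * r * (q * r ^ 2 / 24) ≤
        (q * r ^ 4 / 12 + C * r ^ 6) * (q * r ^ 2 / 24) :=
      mul_le_mul_of_nonneg_right b2 (by positivity)
    have b6 : (q * r ^ 4 / 12 + C * r ^ 6) * (q * r ^ 2 / 24) =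
        (q ^ 2 / 288) * r ^ 6 + (C * q / 24 * r ^ 2) * r ^ 6 := by ring
    have b7 : q ^ 2 ≤ M ^ 2 := pow_le_pow_left₀ hq hqM 2
    have b8 : r ^ 2 ≤ 1 := pow_le_one₀ hr.le h1
    have b9 : C * q / 24 * r ^ 2 ≤ C * M := by
      have : C * q ≤ C * M := mul_le_mul_of_nonneg_left hqM hC
      have h3 : 0 ≤ C * q := by positivity
      calc C * q / 24 * r ^ 2 ≤ C * q / 24 * 1 := mul_le_mul_of_nonneg_left b8 (by positivity)
        _ ≤ C * M := by linarith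
    have hr6 : 0 ≤ r ^ 6 := by positivity
    have b10 : (C * q / 24 * r ^ 2) * r ^ 6 ≤ C * M * r ^ 6 := mul_le_mul_of_nonneg_right b9 hr6
    have b11 : (q ^ 2 / 288) * r ^ 6 ≤ M ^ 2 * r ^ 6 :=
      mul_le_mul_of_nonneg_right (by nlinarith [sq_nonneg M]) hr6
    have b12 : |((r - d) - q * r ^ 3 / 24)| * r ≤ (1 + M + M ^ 2 + C * M + C) * r ^ 5 * r := by
      have : (1 + M + M ^ 2 + C * M + C) * r ^ 5 * r =
        (1 + M) * r ^ 6 + M ^ 2 * r ^ 6 + C * M * r ^ 6 + C * r ^ 6 := by ring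
      rw [this]
      have : 0 ≤ (1 + M) * r ^ 6 := by positivity
      linarith
    exact le_of_mul_le_mul_right b12 hr

/-- a continuous function which vanishes outside `[-L, L]` is bounded -/
theorem bdd_of {F : ℝ → P} {L : ℝ} (hF : Continuous F) (h0 : ∀ s, L < |s| → F s = 0) :
    ∃ M, ∀ s, ‖F s‖ ≤ M := by
  obtain ⟨M, hM⟩ := (isCompact_Icc (a := -L) (b := L)).exists_bound_of_continuousOn hF.continuousOn
  refine ⟨max M 0, fun s => ?_⟩
  by_cases hs : L < |s|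
  · rw [h0 s hs, norm_zero]
    exact le_max_right _ _
  · exact (hM s (abs_le.1 (not_lt.1 hs))).trans (le_max_left _ _)

theorem zero_deriv {F : ℝ → P} {L : ℝ} (h0 : ∀ s, L < |s| → F s = 0) :
    ∀ s, L < |s| → deriv F s = 0 := by
  intro s hs
  have : F =ᶠ[𝓝 s] fun _ => 0 := by
    filter_upwards [continuous_abs.continuousAt.eventually (lt_mem_nhds hs)] with x hx
    exact h0 x hx
  rw [this.deriv_eq, deriv_const]

theorem nn_zero {γ : ℝ → P} {L : ℝ} (h : Crv γ L) : ∀ s, L < |s| → deriv (deriv γ) s = 0 := by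
  have aff : ∀ (p v : P) (c s : ℝ), deriv (fun x : ℝ => p + (x + c) • v) s = v := by
    intro p v c s
    have h1 : HasDerivAt (fun x : ℝ => p + (x + c) • v) ((1 : ℝ) • v) s :=
      (((hasDerivAt_id s).add_const c).smul_const v).const_add p
    rw [h1.deriv, one_smul]
  intro s hs
  rcases lt_abs.1 hs with h1 | h1
  · have e1 : ∀ x, L < x → deriv γ x = deriv γ L := by
      intro x hx
      have : γ =ᶠ[𝓝 x] fun x => γ L + (x + -L) • deriv γ L := by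
        filter_upwards [lt_mem_nhds hx] with y hy
        rw [← sub_eq_add_neg]
        exact h.right y hy.le
      rw [this.deriv_eq, aff]
    have : deriv γ =ᶠ[𝓝 s] fun _ => deriv γ L := by
      filter_upwards [lt_mem_nhds h1] with y hy
      exact e1 y hy
    rw [this.deriv_eq, deriv_const]
  · have h2 : s < -L := by linarith
    have e1 : ∀ x, x < -L → deriv γ x = deriv γ (-L) := by
      intro x hx
      have : γ =ᶠ[𝓝 x] fun x => γ (-L) + (x + L) • deriv γ (-L) := by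
        filter_upwards [gt_mem_nhds hx] with y hy
        exact h.left y hy.le
      rw [this.deriv_eq, aff]
    have : deriv γ =ᶠ[𝓝 s] fun _ => deriv γ (-L) := by
      filter_upwards [gt_mem_nhds h2] with y hy
      exact e1 y hy
    rw [this.deriv_eq, deriv_const]

theorem dat {γ : ℝ → P} {L : ℝ} (h : Crv γ L) :
    ∃ M, Dat γ (deriv γ) (deriv (deriv γ)) (deriv (deriv (deriv γ)))
      (deriv (deriv (deriv (deriv γ)))) M := by
  have c0 : ContDiff ℝ (3 + 1) γ := by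
    have := h.smooth
    norm_num at this ⊢
    exact this
  have c1 : ContDiff ℝ (2 + 1) (deriv γ) := by
    have := (contDiff_succ_iff_deriv.1 c0).2.2
    norm_num at this ⊢
    exact this
  have c2 : ContDiff ℝ (1 + 1) (deriv (deriv γ)) := by
    have := (contDiff_succ_iff_deriv.1 c1).2.2
    norm_num at this ⊢
    exact this
  have c3 : ContDiff ℝ (0 + 1) (deriv (deriv (deriv γ))) := by
    have := (contDiff_succ_iff_deriv.1 c2).2.2
    norm_num at this ⊢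
    exact this
  have c4 : ContDiff ℝ 0 (deriv (deriv (deriv (deriv γ)))) :=
    (contDiff_succ_iff_deriv.1 c3).2.2
  have z0 := nn_zero h
  have z1 := zero_deriv z0
  have z2 := zero_deriv z1
  obtain ⟨M0, h0⟩ := bdd_of c2.continuous z0
  obtain ⟨M1, h1⟩ := bdd_of c3.continuous z1
  obtain ⟨M2, h2⟩ := bdd_of c4.continuous z2
  refine ⟨max M0 (max M1 M2), ?_, ?_, ?_, ?_, h.unit, ?_, ?_, ?_⟩
  · exact fun x => ((contDiff_succ_iff_deriv.1 c0).1 x).hasDerivAt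
  · exact fun x => ((contDiff_succ_iff_deriv.1 c1).1 x).hasDerivAt
  · exact fun x => ((contDiff_succ_iff_deriv.1 c2).1 x).hasDerivAt
  · exact fun x => ((contDiff_succ_iff_deriv.1 c3).1 x).hasDerivAt
  · exact fun x => (h0 x).trans (le_max_left _ _)
  · exact fun x => (h1 x).trans ((le_max_left _ _).trans (le_max_right _ _))
  · exact fun x => (h2 x).trans ((le_max_right _ _).trans (le_max_right _ _))

theorem t_TAY2 : S_TAY2 := by
  intro γ L h
  obtain ⟨M, D⟩ := dat h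
  have hM0 : 0 ≤ M := (norm_nonneg _).trans (D.b0 0)
  have hchord : ∀ s t, ‖γ s - γ t‖ ≤ |s - t| := by
    intro s t
    have := lip D.hγ (fun x => (D.unit x).le) s t
    rwa [one_mul] at this
  have hq : ∀ s, kap2 γ s = ‖deriv (deriv γ) s‖ ^ 2 := fun s => rfl
  have hqM : ∀ s, kap2 γ s ≤ M ^ 2 := fun s => by
    rw [hq]; exact pow_le_pow_left₀ (norm_nonneg _) (D.b0 s) 2
  have hsq : ∀ s t, |‖γ s - γ t‖ ^ 2 - |s - t| ^ 2 + kap2 γ ((s + t) / 2) * |s - t| ^ 4 / 12| ≤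
      (100 * M ^ 2) * |s - t| ^ 6 := by
    have key : ∀ s t, t ≤ s →
        |‖γ s - γ t‖ ^ 2 - |s - t| ^ 2 + kap2 γ ((s + t) / 2) * |s - t| ^ 4 / 12| ≤
        (100 * M ^ 2) * |s - t| ^ 6 := by
      intro s t hst
      have h1 := sqe D ((s + t) / 2) ((s - t) / 2) (by linarith)
      rw [show (s + t) / 2 + (s - t) / 2 = s by ring,
        show (s + t) / 2 - (s - t) / 2 = t by ring] at h1
      rw [abs_of_nonneg (by linarith : 0 ≤ s - t), hq]
      have e : ‖γ s - γ t‖ ^ 2 - (s - t) ^ 2 +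
          ‖deriv (deriv γ) ((s + t) / 2)‖ ^ 2 * (s - t) ^ 4 / 12 =
          ‖γ s - γ t‖ ^ 2 - 4 * ((s - t) / 2) ^ 2 +
          ‖deriv (deriv γ) ((s + t) / 2)‖ ^ 2 * (4 / 3 * ((s - t) / 2) ^ 4) := by ring
      rw [e]
      refine h1.trans ?_
      have : 0 ≤ M ^ 2 * (s - t) ^ 6 := by positivity
      have e2 : 100 * M ^ 2 * ((s - t) / 2) ^ 6 = 100 / 64 * (M ^ 2 * (s - t) ^ 6) := by ring
      rw [e2]
      linarith
    intro s t
    rcases le_total t s with hst | hst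
    · exact key s t hst
    · have := key t s hst
      rw [norm_sub_rev, abs_sub_comm t s, add_comm t s] at this
      exact this
  refine ⟨(1 + M ^ 2 + (M ^ 2) ^ 2 + (100 * M ^ 2) * M ^ 2 + (100 * M ^ 2)) +
    (2 * M ^ 2 + 6 * M ^ 2), by positivity, ?_, ?_, ?_, ?_⟩
  · intro s t
    refine (root (abs_nonneg _) (norm_nonneg _) (hchord s t) (by rw [hq]; positivity)
      (by positivity) (hqM _) (hsq s t)).trans ?_
    apply mul_le_mul_of_nonneg_right _ (by positivity)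
    have : 0 ≤ 2 * M ^ 2 + 6 * M ^ 2 := by positivity
    linarith
  · intro s
    have := hqM s
    have : 0 ≤ (M ^ 2) ^ 2 + (100 * M ^ 2) * M ^ 2 + (100 * M ^ 2) + (2 * M ^ 2 + 6 * M ^ 2) := by
      positivity
    linarith
  · intro s a
    have h1 := lip D.hN D.b1 (s + a) s
    rw [show s + a - s = a by ring] at h1
    have h2 := nsq h1 (add_le_add (D.b0 (s + a)) (D.b0 s))
    rw [hq, hq]
    refine h2.trans ?_
    have h3 : 0 ≤ 1 + M ^ 2 + (M ^ 2) ^ 2 + (100 * M ^ 2) * M ^ 2 + (100 * M ^ 2) +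
      6 * M ^ 2 := by positivity
    have h4 := mul_nonneg h3 (abs_nonneg a)
    have e : M * |a| * (M + M) = 2 * M ^ 2 * |a| := by ring
    rw [e]
    linarith
  · intro s a
    have h1 := qsec D s a
    rw [hq, hq, hq]
    refine h1.trans ?_
    have h3 : 0 ≤ 1 + M ^ 2 + (M ^ 2) ^ 2 + (100 * M ^ 2) * M ^ 2 + (100 * M ^ 2) +
      2 * M ^ 2 := by positivity
    have h4 := mul_nonneg h3 (sq_nonneg a)
    linarith

end

end Pool.Agent.E8helper26.LC
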